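import Pool.Agent.helper59.BR.SpecH

set_option autoImplicit false

namespace Pool.Agent.BR

open Pool.Agent.helper58.DC Pool.Agent.DI Pool.Agent.GR Pool.Agent.OB Pool.Agent.DR Pool.Agent.FI Pool.Agent.FI3 Pool.Agent.FI4 Pool.Agent.LE

/-- orbit and stabiliser for the conjugation by `T` -/
theorem HWT_card {G : Type} [Group G] [Finite G] (T : Subgroup G) (u : G) :
    Nat.card {u' : G | ∃ t ∈ T, t * u * t⁻¹ = u'} * Nat.card (Cz T u) = Nat.card T := by
  letI act : MulAction T G := MulAction.compHom G ((MulAut.conj : G →* MulAut G).comp T.subtype)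
  have hsm : ∀ (t : T) (x : G), act.toSMul.smul t x = (t : G) * x * (t : G)⁻¹ := fun t x => rfl
  have h1 := Nat.card_congr (@MulAction.orbitProdStabilizerEquivGroup T G _ act u)
  rw [Nat.card_prod] at h1
  have h2 : @MulAction.orbit T G act.toSMul u = {u' : G | ∃ t ∈ T, t * u * t⁻¹ = u'} := by
    ext x
    constructor
    · rintro ⟨t, ht⟩
      exact ⟨(t : G), t.2, ht⟩
    · rintro ⟨t, ht, hx⟩
      exact ⟨⟨t, ht⟩, hx⟩
  have hle : Cz T u ≤ T := inf_le_left
  have h3 : @MulAction.stabilizer T G _ act u = (Cz T u).subgroupOf T := by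
    ext t
    rw [Subgroup.mem_subgroupOf, mem_Cz]
    constructor
    · intro h
      refine ⟨t.2, ?_⟩
      have h4 : (t : G) * u * (t : G)⁻¹ = u := h
      calc u * (t : G) = ((t : G) * u * (t : G)⁻¹) * (t : G) := by rw [h4]
        _ = (t : G) * u := by rw [inv_mul_cancel_right]
    · rintro ⟨-, h⟩
      show (t : G) * u * (t : G)⁻¹ = u
      rw [← h, mul_inv_cancel_right]
  rw [h2, h3] at h1
  rw [← h1, Nat.card_congr (Subgroup.subgroupOfEquivOfLe hle).toEquiv]

theorem HWT_orb {G : Type} [Group G] (T : Subgroup G) (u t : G) (ht : t ∈ T) :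
    {u' : G | ∃ s ∈ T, s * (t * u * t⁻¹) * s⁻¹ = u'} = {u' : G | ∃ s ∈ T, s * u * s⁻¹ = u'} := by
  ext x
  constructor
  · rintro ⟨s, hs, hx⟩
    refine ⟨s * t, T.mul_mem hs ht, ?_⟩
    rw [← hx]
    simp only [_root_.mul_inv_rev, mul_assoc]
  · rintro ⟨s, hs, hx⟩
    refine ⟨s * t⁻¹, T.mul_mem hs (T.inv_mem ht), ?_⟩
    rw [← hx]
    simp only [_root_.mul_inv_rev, inv_inv, mul_assoc, inv_mul_cancel_left]

theorem HWT_pos {G : Type} [Group G] [Finite G] (T : Subgroup G) (u : G) :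
    Nat.card {u' : G | ∃ t ∈ T, t * u * t⁻¹ = u'} ≠ 0 := by
  haveI : Nonempty {u' : G | ∃ t ∈ T, t * u * t⁻¹ = u'} :=
    ⟨⟨u, 1, T.one_mem, by rw [one_mul, inv_one, mul_one]⟩⟩
  exact Nat.card_pos.ne'

theorem HWT_conj {G : Type} [Group G] [Finite G] (T : Subgroup G) (u t : G) (ht : t ∈ T) :
    Nat.card (Cz T (t * u * t⁻¹)) = Nat.card (Cz T u) := by
  have h1 := HWT_card T (t * u * t⁻¹)
  rw [HWT_orb T u t ht, ← HWT_card T u] at h1
  exact Nat.eq_of_mul_eq_mul_left (Nat.pos_of_ne_zero (HWT_pos T u)) h1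

theorem HWT : HWT_stmt := by
  intro M G _ _ D θ _ u hu
  obtain ⟨T, hT⟩ : ∃ T : Subgroup G, T = TT M D θ := ⟨_, rfl⟩
  have hCT : cz D ≤ T := by
    rw [hT]
    exact cz_le_TT
  have hC0 : (Nat.card (cz D) : ℂ) ≠ 0 := by
    exact_mod_cast (Nat.card_pos (α := cz D)).ne'
  have hidx : Nat.card (cz D) * iI M D θ = Nat.card T := by
    unfold iI
    rw [← hT]
    have h1 := ((cz D).subgroupOf T).card_mul_index
    rw [Nat.card_congr (Subgroup.subgroupOfEquivOfLe hCT).toEquiv] at h1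
    exact h1
  refine ⟨?_, ?_⟩
  · have h1 : ∀ u' ∈ {u' : G | ∃ t ∈ TT M D θ, t * u * t⁻¹ = u'}, ci M D θ u' = ci M D θ u := by
      rintro u' ⟨t, ht, rfl⟩
      unfold ci
      rw [HWT_conj _ u t ht]
    rw [finsum_mem_congr rfl h1]
    obtain ⟨A, hA⟩ : ∃ A : Set G, A = {u' : G | ∃ t ∈ TT M D θ, t * u * t⁻¹ = u'} := ⟨_, rfl⟩
    rw [← hA, finsum_mem_eq_finite_toFinset_sum _ (Set.toFinite A), Finset.sum_const,
      ← Set.ncard_eq_toFinset_card A (Set.toFinite A), nsmul_eq_mul]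
    have h2 : A.ncard * Nat.card (Cz T u) = Nat.card T := by
      have h3 := HWT_card T u
      rw [hT, ← hA] at h3
      rw [hT]
      exact h3
    unfold ci
    rw [← hT, ← mul_div_assoc, div_eq_iff hC0]
    have h4 : (A.ncard : ℂ) * (Nat.card (Cz T u) : ℂ) = (Nat.card T : ℂ) := by
      exact_mod_cast h2
    have h5 : (Nat.card (cz D) : ℂ) * (iI M D θ : ℂ) = (Nat.card T : ℂ) := by
      exact_mod_cast hidx
    rw [h4, ← h5, mul_comm]
  · refine ⟨(Nat.card (Cz T u) : ℝ) / Nat.card (cz D), ?_, ?_⟩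
    · have hle : cz D ≤ Cz T u := by
        intro c hc
        rw [mem_Cz]
        refine ⟨hCT hc, ?_⟩
        rw [Subgroup.mem_centralizer_iff] at hc
        exact hc u hu
      have h1 : Nat.card (cz D) ≤ Nat.card (Cz T u) :=
        Nat.card_le_card_of_injective (Subgroup.inclusion hle) (Subgroup.inclusion_injective hle)
      have h2 : (0 : ℝ) < Nat.card (cz D) := by
        exact_mod_cast (Nat.card_pos (α := cz D))
      rw [le_div_iff₀ h2, one_mul]
      exact_mod_cast h1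
    · unfold ci
      rw [← hT]
      push_cast
      rfl

end Pool.Agent.BR
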